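import Pool.Agent.H983R4.LH.P4

set_option autoImplicit false
open MeasureTheory Filter Topology Set Real

namespace Pool.Agent.H983R4.LH

lemma num1 {T : ℝ} (hT8 : 8 ≤ T) : MM T ≤ 3 * Real.log T := by
  unfold MM
  have h2 : Real.log 3 + 2 * Real.log (T + 3) = Real.log (3 * (T + 3) ^ 2) := by
    rw [Real.log_mul (by norm_num) (by positivity), Real.log_pow]; push_cast; ring
  have h3 : 3 * Real.log T = Real.log (T ^ 3) := by rw [Real.log_pow]; push_cast; ring
  rw [h2, h3]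
  refine Real.log_le_log (by positivity) ?_
  have h4 : 8 * T ≤ T ^ 2 := by nlinarith
  have h5 : 8 * T ^ 2 ≤ T ^ 3 := by
    have := mul_nonneg (sq_nonneg T) (sub_nonneg.2 hT8)
    linarith [this, show T ^ 2 * (T - 8) = T ^ 3 - 8 * T ^ 2 by ring]
  linarith [show 3 * (T + 3) ^ 2 = 3 * T ^ 2 + 18 * T + 27 by ring]

lemma num2 {T : ℝ} (hT8 : 8 ≤ T) : Real.log (T + 1) ≤ 2 * Real.log T := by
  have h3 : 2 * Real.log T = Real.log (T ^ 2) := by rw [Real.log_pow]; push_cast; ring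
  rw [h3]
  exact Real.log_le_log (by linarith) (by nlinarith)

/-- **Large values of the zeta function persist at all scales.** -/
theorem main_local {κ μ : ℝ} (hκ : 0 < κ) (hκμ : κ < μ) : ∃ δ : ℝ, 0 < δ ∧ ∃ T₀ : ℝ, 8 ≤ T₀ ∧
    ∀ T : ℝ, T₀ ≤ T → ∀ h : ℝ, 0 < h → h ≤ 1 → T ^ μ ≤ ‖riemannZeta (1 / 2 + T * Complex.I)‖ →
      ENNReal.ofReal (δ * h) < volume (Ex κ T h) := by
  obtain ⟨K, hK, hloc⟩ := local_bound
  have hpi := Real.pi_pos
  have hC0 := C0_nonneg
  have hC1 := C1_nonneg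
  set q := μ - κ with hq
  have hq0 : 0 < q := by rw [hq]; linarith
  set X : ℝ := 24 * C0 / (2 * π * q) with hX
  set Y : ℝ := 24 * C1 / (2 * π * q) with hY
  have hX0 : 0 ≤ X := by positivity
  have hY0 : 0 ≤ Y := by positivity
  set r₀ : ℝ := min (1 / 2) (min (q / 16) (Real.exp (-X) / 2)) with hr₀
  have hr₀pos : 0 < r₀ := by
    rw [hr₀]
    refine lt_min (by norm_num) (lt_min (by positivity) (by positivity))
  have hr1 : r₀ ≤ 1 / 2 := min_le_left _ _
  have hr2 : r₀ ≤ q / 16 := (min_le_right _ _).trans (min_le_left _ _)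
  have hr3 : r₀ ≤ Real.exp (-X) / 2 := (min_le_right _ _).trans (min_le_right _ _)
  set d : ℝ := Real.exp (-(Y + 1)) with hd
  have hd0 : 0 < d := Real.exp_pos _
  have hd1 : d < 1 := by
    rw [hd, Real.exp_lt_one_iff]
    linarith
  have hlogd : Real.log (1 / d) = Y + 1 := by
    rw [one_div, Real.log_inv, hd, Real.log_exp]; ring
  have hΛ : X ≤ Real.log (1 + 1 / (2 * r₀)) := by
    rw [Real.le_log_iff_exp_le (by positivity)]
    have h1 : Real.exp X ≤ 1 / (2 * r₀) := by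
      rw [le_div_iff₀ (by positivity)]
      have h2 : 2 * r₀ ≤ Real.exp (-X) := by linarith
      calc Real.exp X * (2 * r₀) ≤ Real.exp X * Real.exp (-X) :=
            mul_le_mul_of_nonneg_left h2 (Real.exp_pos _).le
        _ = 1 := by rw [← Real.exp_add]; simp
    linarith
  have hΛ0 : 0 < Real.log (1 + 1 / (2 * r₀)) := Real.log_pos (by
    have : 0 < 1 / (2 * r₀) := by positivity
    linarith)
  set δ : ℝ := q * π * r₀ * d / 24 with hδ
  have hδ0 : 0 < δ := by positivity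
  refine ⟨δ, hδ0, max 8 (Real.exp (8 * K / q)), le_max_left _ _, ?_⟩
  intro T hT h h0 h1 hz
  have hT8 : 8 ≤ T := (le_max_left _ _).trans hT
  have hTe : Real.exp (8 * K / q) ≤ T := (le_max_right _ _).trans hT
  have hT0 : 0 < T := by linarith
  have hlog : 8 * K / q ≤ Real.log T := by
    rw [Real.le_log_iff_exp_le hT0]; exact hTe
  have hlog0 : 0 < Real.log T := Real.log_pos (by linarith)
  by_contra hcon
  push Not at hcon
  have hb := hloc κ T h (r₀ * h) (δ * h) d hκ (by linarith) h0 h1 (by positivity)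
    (by have := mul_le_mul_of_nonneg_right hr1 h0.le; linarith) (by positivity) hd0 hd1 hcon
  have e1 : h / (2 * (r₀ * h)) = 1 / (2 * r₀) := by
    field_simp
  have e2 : δ * h / (π * (r₀ * h * d)) = q / 24 := by
    rw [hδ]; field_simp
  rw [e1, e2, hlogd] at hb
  have b1 : C0 / (2 * π * Real.log (1 + 1 / (2 * r₀))) ≤ q / 24 := by
    rw [div_le_div_iff₀ (by positivity) (by norm_num)]
    have h2 : 24 * C0 = X * (2 * π * q) := by rw [hX]; field_simp
    have h3 : X * (2 * π * q) ≤ Real.log (1 + 1 / (2 * r₀)) * (2 * π * q) :=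
      mul_le_mul_of_nonneg_right hΛ (by positivity)
    calc C0 * 24 = 24 * C0 := by ring
      _ = X * (2 * π * q) := h2
      _ ≤ Real.log (1 + 1 / (2 * r₀)) * (2 * π * q) := h3
      _ = q * (2 * π * Real.log (1 + 1 / (2 * r₀))) := by ring
  have b2 : C1 / (2 * π * (Y + 1)) ≤ q / 24 := by
    rw [div_le_div_iff₀ (by positivity) (by norm_num)]
    have h2 : 24 * C1 = Y * (2 * π * q) := by rw [hY]; field_simp
    have h3 : Y * (2 * π * q) ≤ (Y + 1) * (2 * π * q) :=
      mul_le_mul_of_nonneg_right (by linarith) (by positivity)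
    calc C1 * 24 = 24 * C1 := by ring
      _ = Y * (2 * π * q) := h2
      _ ≤ (Y + 1) * (2 * π * q) := h3
      _ = q * (2 * π * (Y + 1)) := by ring
  have hM := MM_nonneg hT0.le
  have b3 : MM T * (q / 24 + C0 / (2 * π * Real.log (1 + 1 / (2 * r₀))) +
      C1 / (2 * π * (Y + 1))) ≤ MM T * (q / 8) :=
    mul_le_mul_of_nonneg_left (by linarith) hM
  have b4 : MM T ≤ 3 * Real.log T := num1 hT8
  have b5 : r₀ * h * Real.log (T + 1) ≤ q / 8 * Real.log T := by
    have h2 : Real.log (T + 1) ≤ 2 * Real.log T := num2 hT8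
    have h4 : r₀ * h ≤ q / 16 := (mul_le_of_le_one_right hr₀pos.le h1).trans hr2
    have h5 : 0 ≤ r₀ * h := by positivity
    calc r₀ * h * Real.log (T + 1) ≤ r₀ * h * (2 * Real.log T) := mul_le_mul_of_nonneg_left h2 h5
      _ ≤ q / 16 * (2 * Real.log T) := mul_le_mul_of_nonneg_right h4 (by positivity)
      _ = q / 8 * Real.log T := by ring
  have b6 : K ≤ q / 8 * Real.log T := by
    rw [div_le_iff₀ hq0] at hlog
    linarith
  have b7 : MM T * (q / 8) ≤ 3 * Real.log T * (q / 8) := mul_le_mul_of_nonneg_right b4 (by positivity)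
  have b8 : μ * Real.log T ≤ log⁺ ‖riemannZeta (1 / 2 + T * Complex.I)‖ := by
    have h2 := Real.log_le_log (Real.rpow_pos_of_pos hT0 μ) hz
    rw [Real.log_rpow hT0] at h2
    exact h2.trans (le_max_right _ _)
  have b9 : μ * Real.log T = κ * Real.log T + q * Real.log T := by rw [hq]; ring
  have b10 : 0 < q * Real.log T := mul_pos hq0 hlog0
  linarith

/-- the exponent `κ₀` is admissible; `κ₀ = 0` is the Lindelöf hypothesis -/
def Adm (κ₀ : ℝ) : Prop := ∀ ε : ℝ, 0 < ε → ∃ C : ℝ, ∀ t : ℝ,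
  ‖riemannZeta (1 / 2 + t * Complex.I)‖ ≤ C * (1 + |t|) ^ (κ₀ + ε)

lemma zeta_line_cont : Continuous fun t : ℝ => riemannZeta (1 / 2 + t * Complex.I) := by
  rw [continuous_iff_continuousAt]
  intro t
  have h1 : (1 / 2 + (t : ℂ) * Complex.I) ≠ 1 := by
    intro h
    have := congrArg Complex.re h
    simp at this
  have h2 : ContinuousAt riemannZeta (1 / 2 + (t : ℂ) * Complex.I) :=
    (differentiableAt_riemannZeta h1).continuousAt
  have h3 : ContinuousAt (fun t : ℝ => (1 / 2 + (t : ℂ) * Complex.I)) t := by fun_prop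
  exact ContinuousAt.comp (f := fun t : ℝ => (1 / 2 + (t : ℂ) * Complex.I)) h2 h3

lemma zeta_line_neg (t : ℝ) : ‖riemannZeta (1 / 2 + ((-t : ℝ) : ℂ) * Complex.I)‖ =
    ‖riemannZeta (1 / 2 + t * Complex.I)‖ := by
  have h := conj_half 0 t
  have e : (1 / 2 + ((-t : ℝ) : ℂ) * Complex.I) =
      (starRingEnd ℂ) (1 / 2 + t * Complex.I) := by
    simp only [Complex.ofReal_zero, add_zero] at h
    rw [h]; push_cast; ring
  rw [e, riemannZeta_conj, Complex.norm_conj]

/-- a bound on a half line gives a bound everywhere -/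
lemma lh_of {ε T₁ : ℝ} (hε : 0 < ε) (h : ∀ T : ℝ, T₁ ≤ T → ‖riemannZeta (1 / 2 + T * Complex.I)‖ ≤
    (1 + T) ^ ε) : ∃ C : ℝ, ∀ t : ℝ, ‖riemannZeta (1 / 2 + t * Complex.I)‖ ≤ C * (1 + |t|) ^ ε := by
  set R := max T₁ 0 with hR
  have hR0 : 0 ≤ R := le_max_right _ _
  obtain ⟨C, hC⟩ := (isCompact_Icc (a := -R) (b := R)).exists_bound_of_continuousOn
    zeta_line_cont.continuousOn
  refine ⟨max C 1, fun t => ?_⟩
  have h1 : 1 ≤ (1 + |t|) ^ ε := Real.one_le_rpow (by linarith [abs_nonneg t]) hε.le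
  have h2 : 1 ≤ max C 1 := le_max_right _ _
  by_cases ht : |t| ≤ R
  · have h3 := hC t (abs_le.1 ht)
    have h4 : C ≤ max C 1 := le_max_left _ _
    nlinarith
  · push Not at ht
    have h3 : ‖riemannZeta (1 / 2 + ((|t| : ℝ) : ℂ) * Complex.I)‖ =
        ‖riemannZeta (1 / 2 + t * Complex.I)‖ := by
      rcases abs_choice t with h4 | h4
      · rw [h4]
      · rw [h4, zeta_line_neg]
    have h5 := h |t| ((le_max_left _ _).trans ht.le)
    rw [h3] at h5
    nlinarith

/-- admissible exponents from small exceptional sets -/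
theorem adm_of_windows {κ₀ : ℝ} (hκ : 0 ≤ κ₀) {w : ℝ → ℝ} (hw : ∀ T, 0 < w T ∧ w T ≤ 1)
    (h : ∀ ε : ℝ, 0 < ε →
      Tendsto (fun T => volume (Ex (κ₀ + ε) T (w T)) / ENNReal.ofReal (w T)) atTop (𝓝 0)) :
    Adm κ₀ := by
  intro ε hε
  obtain ⟨δ, hδ, T₀, hT₀, hloc⟩ := main_local (κ := κ₀ + ε / 2) (μ := κ₀ + ε) (by linarith)
    (by linarith)
  have h1 : ∀ᶠ T in atTop, volume (Ex (κ₀ + ε / 2) T (w T)) / ENNReal.ofReal (w T) <
      ENNReal.ofReal δ := (h (ε / 2) (by linarith)).eventually_lt_const (by simpa using hδ)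
  obtain ⟨T₁, hT₁⟩ := eventually_atTop.1 h1
  refine lh_of (T₁ := max T₀ T₁) (by linarith) fun T hT => ?_
  have hTa : T₀ ≤ T := (le_max_left _ _).trans hT
  have hTb : T₁ ≤ T := (le_max_right _ _).trans hT
  by_contra hcon
  push Not at hcon
  have h2 : T ^ (κ₀ + ε) ≤ ‖riemannZeta (1 / 2 + T * Complex.I)‖ := by
    refine le_trans ?_ hcon.le
    exact Real.rpow_le_rpow (by linarith) (by linarith) (by linarith)
  have h3 := hloc T hTa (w T) (hw T).1 (hw T).2 h2
  have h4 := hT₁ T hTb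
  have h5 : ENNReal.ofReal (w T) ≠ 0 := by simpa using (hw T).1
  rw [ENNReal.div_lt_iff (Or.inl h5) (Or.inl ENNReal.ofReal_ne_top),
    ← ENNReal.ofReal_mul hδ.le] at h4
  exact lt_asymm h3 h4

/-- for an admissible exponent the exceptional sets are empty -/
lemma Ex_empty {κ₀ : ℝ} (hκ : 0 ≤ κ₀) (h : Adm κ₀) {ε : ℝ} (hε : 0 < ε) :
    ∀ᶠ T : ℝ in atTop, ∀ w : ℝ, w ≤ 1 → Ex (κ₀ + ε) T w = ∅ := by
  obtain ⟨C, hC⟩ := h (ε / 2) (by linarith)
  have hC0 : 0 ≤ C := by
    have := (norm_nonneg _).trans (hC 0)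
    simpa using this
  set e : ℝ := κ₀ + ε / 2 with he
  have he0 : 0 < e := by rw [he]; linarith
  have h1 : Tendsto (fun T : ℝ => T ^ (ε / 2)) atTop atTop := tendsto_rpow_atTop (by linarith)
  filter_upwards [h1.eventually_ge_atTop (C * 2 ^ e), eventually_ge_atTop 2] with T h2 h3 w hw
  rw [Set.eq_empty_iff_forall_notMem]
  rintro x ⟨hx1, hx2⟩
  have h4 := hC x
  have h5 : |x| ≤ T + 1 := by
    have := abs_sub_abs_le_abs_sub x T
    rw [abs_of_pos (show (0:ℝ) < T by linarith)] at this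
    linarith
  have h6 : (1 + |x|) ^ e ≤ (2 * T) ^ e :=
    Real.rpow_le_rpow (by positivity) (by linarith) he0.le
  rw [Real.mul_rpow (by norm_num) (by linarith)] at h6
  have h7 : T ^ (κ₀ + ε) = T ^ (ε / 2) * T ^ e := by
    rw [← Real.rpow_add (by linarith)]; congr 1; rw [he]; ring
  have h8 : C * (1 + |x|) ^ e ≤ C * (2 ^ e * T ^ e) := mul_le_mul_of_nonneg_left h6 hC0
  have h9 : C * (2 ^ e * T ^ e) ≤ T ^ (ε / 2) * T ^ e := by
    rw [← mul_assoc]
    exact mul_le_mul_of_nonneg_right h2 (by positivity)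
  linarith

end Pool.Agent.H983R4.LH
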