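import Mathlib
import Pool.Agent.H437R2.A1
import Pool.Agent.H345R2.Chi

set_option autoImplicit false
open MeasureTheory Filter Topology Set Real

namespace Pool.Agent.H983R4.LH

/-- submean property of `log⁺ |f|` -/
lemma posLog_submean {f : ℂ → ℂ} {c : ℂ} {R : ℝ} (hR : 0 < R)
    (hf : AnalyticOnNhd ℂ f (Metric.closedBall c R)) :
    log⁺ ‖f c‖ ≤ circleAverage (fun z => log⁺ ‖f z‖) c R := by
  have hR' : |R| = R := abs_of_pos hR
  have hm : MeromorphicOn f (Metric.sphere c |R|) := by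
    rw [hR']
    exact (hf.mono Metric.sphere_subset_closedBall).meromorphicOn
  rw [posLog_apply, max_le_iff]
  constructor
  · exact circleAverage_nonneg_of_nonneg (fun x _ => posLog_nonneg)
  · by_cases h0 : f c = 0
    · rw [h0, norm_zero, log_zero]
      exact circleAverage_nonneg_of_nonneg (fun x _ => posLog_nonneg)
    · have h1 := AnalyticOnNhd.circleAverage_log_norm hR.ne' (by rw [hR']; exact hf) h0
      have h2 : 0 ≤ ∑ᶠ u, (MeromorphicOn.divisor f (Metric.closedBall c |R|) u : ℝ) *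
          Real.log (R * ‖c - u‖⁻¹) := by
        refine finsum_nonneg fun u => ?_
        by_cases hu : u ∈ Metric.closedBall c |R|
        · refine mul_nonneg ?_ ?_
          · have := MeromorphicOn.AnalyticOnNhd.divisor_nonneg (by rw [hR']; exact hf :
              AnalyticOnNhd ℂ f (Metric.closedBall c |R|)) u
            exact_mod_cast this
          · by_cases huc : u = c
            · simp [huc]
            · have hpos : 0 < ‖c - u‖ := by
                rw [norm_pos_iff, sub_ne_zero]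
                exact fun h => huc h.symm
              refine Real.log_nonneg ?_
              rw [hR', Metric.mem_closedBall, dist_comm, dist_eq_norm] at hu
              rw [← div_eq_mul_inv, le_div_iff₀ hpos, one_mul]
              exact hu
        · rw [Function.locallyFinsuppWithin.apply_eq_zero_of_notMem _ hu]
          simp
      have h3 : circleAverage (fun z => Real.log ‖f z‖) c R ≤
          circleAverage (fun z => log⁺ ‖f z‖) c R :=
        circleAverage_mono hm.circleIntegrable_log_norm hm.circleIntegrable_posLog_norm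
          (fun x _ => le_max_right _ _)
      linarith

/-- `(s - 1) ζ(s) / (s + 1)` -/
noncomputable def G (s : ℂ) : ℂ := riemannZeta₁ s / (s + 1)

lemma add_one_ne {s : ℂ} (hs : -1 < s.re) : s + 1 ≠ 0 := by
  intro h
  have := congrArg Complex.re h
  simp at this
  linarith

lemma G_analyticAt {s : ℂ} (hs : -1 < s.re) : AnalyticAt ℂ G s := by
  refine AnalyticAt.div (differentiable_riemannZeta₁.analyticAt s) ?_ (add_one_ne hs)
  fun_prop

lemma G_norm_le {s : ℂ} (hs : 1 / 2 ≤ s.re) : ‖G s‖ ≤ 3 * (‖s‖ + 1) ^ 2 := by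
  have h1 := Pool.Agent.H437R2.z1_norm_le hs
  have h2 : 1 ≤ ‖s + 1‖ := by
    have := Complex.abs_re_le_norm (s + 1)
    rw [Complex.add_re, Complex.one_re] at this
    have h3 := le_abs_self (s.re + 1)
    linarith
  unfold G
  rw [norm_div, div_le_iff₀ (by linarith)]
  have h3 : 0 ≤ 3 * (‖s‖ + 1) ^ 2 := by positivity
  nlinarith

lemma posLog_G_le {s : ℂ} (hs : 1 / 2 ≤ s.re) :
    log⁺ ‖G s‖ ≤ Real.log 3 + 2 * Real.log (‖s‖ + 1) := by
  have h0 : (0:ℝ) ≤ ‖s‖ := norm_nonneg _
  have h1 := posLog_le_posLog (norm_nonneg _) (G_norm_le hs)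
  have h2 : log⁺ (3 * (‖s‖ + 1) ^ 2) = Real.log 3 + 2 * Real.log (‖s‖ + 1) := by
    rw [posLog_eq_log, Real.log_mul (by norm_num) (by positivity), Real.log_pow]
    · push_cast; ring
    · rw [abs_of_nonneg (by positivity)]
      nlinarith
  linarith

lemma G_le_zeta {s : ℂ} (hs : 0 ≤ s.re) (h1 : s ≠ 1) : ‖G s‖ ≤ ‖riemannZeta s‖ := by
  unfold G
  rw [Pool.Agent.H437R2.z1_of_ne h1, norm_div, norm_mul]
  have h2 : ‖s - 1‖ ≤ ‖s + 1‖ := by
    rw [Complex.norm_def, Complex.norm_def]
    apply Real.sqrt_le_sqrt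
    simp only [Complex.normSq_apply, Complex.sub_re, Complex.one_re, Complex.sub_im,
      Complex.one_im, Complex.add_re, Complex.add_im]
    nlinarith
  have h3 : 0 < ‖s + 1‖ := norm_pos_iff.2 (add_one_ne (by linarith))
  rw [div_le_iff₀ h3, mul_comm]
  exact mul_le_mul_of_nonneg_left h2 (norm_nonneg _)

lemma zeta_le_G {s : ℂ} (hs : 0 ≤ s.re) (h1 : 1 ≤ ‖s - 1‖) :
    ‖riemannZeta s‖ ≤ 3 * ‖G s‖ := by
  have h0 : s ≠ 1 := by
    rintro rfl
    simp at h1
    linarith
  unfold G
  rw [Pool.Agent.H437R2.z1_of_ne h0, norm_div, norm_mul]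
  have h3 : 0 < ‖s + 1‖ := norm_pos_iff.2 (add_one_ne (by linarith))
  have h2 : ‖s + 1‖ ≤ 3 * ‖s - 1‖ := by
    have : s + 1 = (s - 1) + 2 := by ring
    rw [this]
    refine (norm_add_le _ _).trans ?_
    have : ‖(2:ℂ)‖ = 2 := by simp
    rw [this]
    linarith
  rw [mul_div_assoc', le_div_iff₀ h3]
  nlinarith [norm_nonneg (riemannZeta s)]

lemma posLog_zeta_le {s : ℂ} (hs : 0 ≤ s.re) (h1 : 1 ≤ ‖s - 1‖) :
    log⁺ ‖riemannZeta s‖ ≤ Real.log 3 + log⁺ ‖G s‖ := by
  have h2 := posLog_le_posLog (norm_nonneg _) (zeta_le_G hs h1)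
  have h3 : log⁺ (3 * ‖G s‖) ≤ log⁺ 3 + log⁺ ‖G s‖ := posLog_mul
  have h4 : log⁺ (3:ℝ) = Real.log 3 := posLog_eq_log (by norm_num)
  linarith

end Pool.Agent.H983R4.LH
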