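import Pool.Agent.H983R4.LH.P1

set_option autoImplicit false
open MeasureTheory Filter Topology Set Real

namespace Pool.Agent.H983R4.LH

/-- conformal map of the unit disc onto the half plane -/
noncomputable def P (a t : ℝ) (w : ℂ) : ℂ := 1 / 2 + t * Complex.I + a * ((1 + w) / (1 - w))

lemma P_zero (a t : ℝ) : P a t 0 = 1 / 2 + a + t * Complex.I := by
  unfold P; simp; ring

/-- `cot (θ/2)` -/
noncomputable def ct (θ : ℝ) : ℝ := Real.cos (θ / 2) / Real.sin (θ / 2)

lemma sin_half_pos {θ : ℝ} (h0 : 0 < θ) (h1 : θ < 2 * π) : 0 < Real.sin (θ / 2) :=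
  Real.sin_pos_of_pos_of_lt_pi (by linarith) (by linarith)

lemma P_circle (a t : ℝ) {θ : ℝ} (h0 : 0 < θ) (h1 : θ < 2 * π) :
    P a t (circleMap 0 1 θ) = 1 / 2 + ((t + a * ct θ : ℝ) : ℂ) * Complex.I := by
  have hs := sin_half_pos h0 h1
  have hs' : ((Real.sin (θ / 2) : ℝ) : ℂ) ≠ 0 := by exact_mod_cast hs.ne'
  have e1 : circleMap 0 1 θ = ((Real.cos (θ / 2) : ℝ) + (Real.sin (θ / 2) : ℝ) * Complex.I) ^ 2 := by
    rw [circleMap]
    simp only [Complex.ofReal_one, one_mul, zero_add]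
    push_cast
    rw [← Complex.exp_mul_I, ← Complex.exp_nat_mul]
    congr 1
    push_cast
    ring
  set c : ℂ := ((Real.cos (θ / 2) : ℝ) : ℂ) with hc
  set s : ℂ := ((Real.sin (θ / 2) : ℝ) : ℂ) with hsd
  have hcs : c ^ 2 + s ^ 2 = 1 := by
    rw [hc, hsd]
    have := Real.cos_sq_add_sin_sq (θ / 2)
    exact_mod_cast this
  have e2 : (1 + (c + s * Complex.I) ^ 2) = 2 * c * (c + s * Complex.I) := by
    linear_combination (-1 : ℂ) * hcs + s ^ 2 * Complex.I_sq
  have e3 : (1 - (c + s * Complex.I) ^ 2) = -2 * s * Complex.I * (c + s * Complex.I) := by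
    linear_combination (-1 : ℂ) * hcs + s ^ 2 * Complex.I_sq
  have hne : c + s * Complex.I ≠ 0 := by
    intro h
    have h2 : (c + s * Complex.I) * (c - s * Complex.I) = 0 := by rw [h]; simp
    have h3 : (c + s * Complex.I) * (c - s * Complex.I) = 1 := by
      linear_combination hcs - s ^ 2 * Complex.I_sq
    rw [h3] at h2
    exact one_ne_zero h2
  unfold P
  rw [e1, e2, e3]
  have e4 : 2 * c * (c + s * Complex.I) / (-2 * s * Complex.I * (c + s * Complex.I)) =
      (c / s) * Complex.I := by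
    have hI := Complex.I_ne_zero
    rw [div_eq_iff (by simp [hs', hne, hI]), div_mul_eq_mul_div, div_mul_eq_mul_div,
      eq_div_iff hs']
    linear_combination (2 * c * s * (c + s * Complex.I)) * Complex.I_sq
  rw [e4]
  unfold ct
  rw [Complex.ofReal_add, Complex.ofReal_mul, Complex.ofReal_div, ← hc, ← hsd]
  ring

lemma one_sub_ne {w : ℂ} (hw : ‖w‖ < 1) : 1 - w ≠ 0 := by
  intro h
  have : w = 1 := (sub_eq_zero.1 h).symm
  rw [this] at hw
  simp at hw

lemma re_P {a t : ℝ} (ha : 0 < a) {w : ℂ} (hw : ‖w‖ < 1) : 1 / 2 ≤ (P a t w).re := by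
  have h1 : 0 ≤ ((1 + w) / (1 - w)).re := by
    rw [Complex.div_re, ← add_div]
    refine div_nonneg ?_ (Complex.normSq_nonneg _)
    simp only [Complex.add_re, Complex.one_re, Complex.sub_re, Complex.add_im, Complex.one_im,
      Complex.sub_im]
    have h2 : Complex.normSq w < 1 := by
      rw [Complex.normSq_eq_norm_sq]
      nlinarith [norm_nonneg w]
    rw [Complex.normSq_apply] at h2
    nlinarith
  unfold P
  have h3 : (1 / 2 + (t : ℂ) * Complex.I + a * ((1 + w) / (1 - w))).re =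
      1 / 2 + a * ((1 + w) / (1 - w)).re := by
    rw [Complex.add_re, Complex.add_re, Complex.re_ofReal_mul, Complex.re_ofReal_mul]
    simp
  rw [h3]
  have := mul_nonneg ha.le h1
  linarith

lemma P_differentiableAt (a t : ℝ) {w : ℂ} (hw : 1 - w ≠ 0) : AnalyticAt ℂ (P a t) w := by
  unfold P
  refine AnalyticAt.add (by fun_prop) (AnalyticAt.mul (by fun_prop) ?_)
  exact AnalyticAt.div (by fun_prop) (by fun_prop) hw

lemma norm_one_sub {ρ θ : ℝ} (h4 : 1 / 4 ≤ ρ) :
    |Real.sin (θ / 2)| ≤ ‖1 - circleMap 0 ρ θ‖ := by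
  rw [Complex.norm_def, ← Real.sqrt_sq_eq_abs]
  apply Real.sqrt_le_sqrt
  have e1 : circleMap 0 ρ θ = ((ρ * Real.cos θ : ℝ) : ℂ) + ((ρ * Real.sin θ : ℝ) : ℂ) * Complex.I := by
    rw [circleMap, Complex.exp_mul_I]
    push_cast
    ring
  rw [e1, Complex.normSq_apply]
  have key1 : ∀ x y : ℝ, (1 - ((x : ℂ) + (y : ℂ) * Complex.I)).re = 1 - x := by
    intro x y; simp
  have key2 : ∀ x y : ℝ, (1 - ((x : ℂ) + (y : ℂ) * Complex.I)).im = -y := by
    intro x y; simp
  rw [key1, key2]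
  have h3 : Real.cos θ = 1 - 2 * Real.sin (θ / 2) ^ 2 := by
    have := Real.cos_two_mul (θ / 2)
    have h5 := Real.sin_sq_add_cos_sq (θ / 2)
    rw [show 2 * (θ / 2) = θ by ring] at this
    linarith
  have h6 := Real.sin_sq_add_cos_sq θ
  have h7 : (1 - ρ * Real.cos θ) * (1 - ρ * Real.cos θ) + -(ρ * Real.sin θ) * -(ρ * Real.sin θ) =
      (1 - ρ) ^ 2 + 4 * ρ * Real.sin (θ / 2) ^ 2 := by
    have : (1 - ρ * Real.cos θ) * (1 - ρ * Real.cos θ) + -(ρ * Real.sin θ) * -(ρ * Real.sin θ) =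
      1 - 2 * ρ * Real.cos θ + ρ ^ 2 * (Real.sin θ ^ 2 + Real.cos θ ^ 2) := by ring
    rw [this, h6, h3]
    ring
  rw [h7]
  nlinarith [sq_nonneg (1 - ρ), sq_nonneg (Real.sin (θ / 2))]

/-- the dominating function -/
noncomputable def Bd (a t θ : ℝ) : ℝ :=
  Real.log 3 + 2 * (Real.log (3 / 2 + |t| + 2 * a) - Real.log (Real.sin (θ / 2)))

lemma Bd_integrable (a t : ℝ) : IntervalIntegrable (Bd a t) volume 0 (2 * π) := by
  have h1 : IntervalIntegrable (fun θ : ℝ => Real.log (Real.sin (θ / 2))) volume 0 (2 * π) := by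
    have h := (intervalIntegrable_log_sin (a := 0) (b := π)).comp_mul_left (c := (1 / 2 : ℝ))
    have e1 : (0:ℝ) / (1 / 2) = 0 := by norm_num
    have e2 : π / (1 / 2) = 2 * π := by ring
    rw [e1, e2] at h
    refine h.congr ?_
    intro x _
    simp only [Function.comp]
    rw [show 1 / 2 * x = x / 2 by ring]
  unfold Bd
  exact (intervalIntegrable_const).add ((intervalIntegrable_const.sub h1).const_mul 2)

lemma dom {a t ρ θ : ℝ} (ha : 0 < a) (h4 : 1 / 4 ≤ ρ) (h1 : ρ < 1) (hs : Real.sin (θ / 2) ≠ 0) :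
    log⁺ ‖G (P a t (circleMap 0 ρ θ))‖ ≤ Bd a t θ := by
  have hρ : 0 < ρ := by linarith
  have hw : ‖circleMap 0 ρ θ‖ < 1 := by
    rw [norm_circleMap_zero, abs_of_pos hρ]; exact h1
  refine (posLog_G_le (re_P ha hw)).trans ?_
  unfold Bd
  have hs0 : 0 < |Real.sin (θ / 2)| := abs_pos.2 hs
  have hs1 : |Real.sin (θ / 2)| ≤ 1 := Real.abs_sin_le_one _
  have h2 : ‖P a t (circleMap 0 ρ θ)‖ ≤ 1 / 2 + |t| + a * (2 / |Real.sin (θ / 2)|) := by
    unfold P
    refine (norm_add_le _ _).trans (add_le_add ((norm_add_le _ _).trans (add_le_add ?_ ?_)) ?_)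
    · simp
    · rw [norm_mul, Complex.norm_I, mul_one, Complex.norm_real, Real.norm_eq_abs]
    · rw [norm_mul, Complex.norm_real, Real.norm_eq_abs, abs_of_pos ha, norm_div]
      refine mul_le_mul_of_nonneg_left ?_ ha.le
      have h3 := norm_one_sub (θ := θ) h4
      have h5 : ‖1 + circleMap 0 ρ θ‖ ≤ 2 := by
        refine (norm_add_le _ _).trans ?_
        rw [norm_one]; linarith
      exact div_le_div₀ (by norm_num) h5 hs0 h3
  have h3 : ‖P a t (circleMap 0 ρ θ)‖ + 1 ≤ (3 / 2 + |t| + 2 * a) / |Real.sin (θ / 2)| := by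
    rw [le_div_iff₀ hs0]
    have h5 : (‖P a t (circleMap 0 ρ θ)‖ + 1) * |Real.sin (θ / 2)| ≤
        (1 / 2 + |t| + a * (2 / |Real.sin (θ / 2)|) + 1) * |Real.sin (θ / 2)| :=
      mul_le_mul_of_nonneg_right (by linarith) hs0.le
    have h6 : (1 / 2 + |t| + a * (2 / |Real.sin (θ / 2)|) + 1) * |Real.sin (θ / 2)| =
        (3 / 2 + |t|) * |Real.sin (θ / 2)| + 2 * a := by
      field_simp
      ring
    have h7 : (3 / 2 + |t|) * |Real.sin (θ / 2)| ≤ (3 / 2 + |t|) * 1 :=
      mul_le_mul_of_nonneg_left hs1 (by positivity)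
    linarith
  have h5 : Real.log (‖P a t (circleMap 0 ρ θ)‖ + 1) ≤
      Real.log (3 / 2 + |t| + 2 * a) - Real.log (Real.sin (θ / 2)) := by
    have h6 := Real.log_le_log (by positivity) h3
    rwa [Real.log_div (by positivity) hs0.ne', Real.log_abs] at h6
  linarith

/-- **Poisson-Jensen inequality in the half plane.** -/
theorem poisson {a : ℝ} (ha : 0 < a) (t : ℝ) :
    log⁺ ‖G (1 / 2 + a + t * Complex.I)‖ ≤
      (2 * π)⁻¹ * ∫ θ in (0:ℝ)..2 * π, log⁺ ‖G (1 / 2 + ((t + a * ct θ : ℝ) : ℂ) * Complex.I)‖ := by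
  have hpi := Real.pi_pos
  have hlim : Tendsto (fun ρ : ℝ => ∫ θ in (0:ℝ)..2 * π, log⁺ ‖G (P a t (circleMap 0 ρ θ))‖)
      (𝓝[<] 1) (𝓝 (∫ θ in (0:ℝ)..2 * π, log⁺ ‖G (1 / 2 + ((t + a * ct θ : ℝ) : ℂ) * Complex.I)‖)) := by
    have hev : ∀ᶠ ρ : ℝ in 𝓝[<] (1:ℝ), 1 / 4 ≤ ρ ∧ ρ < 1 := by
      have h1 : ∀ᶠ ρ : ℝ in 𝓝[<] (1:ℝ), 1 / 4 < ρ :=
        nhdsWithin_le_nhds (Ioi_mem_nhds (by norm_num))
      filter_upwards [h1, self_mem_nhdsWithin] with ρ h2 h3
      exact ⟨h2.le, h3⟩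
    have hae : ∀ᵐ θ : ℝ ∂volume, θ ∈ Set.uIoc 0 (2 * π) → 0 < θ ∧ θ < 2 * π := by
      have : ∀ᵐ θ : ℝ ∂volume, θ ≠ 2 * π := by
        simp [ae_iff, measure_singleton]
      filter_upwards [this] with θ h1 h2
      rw [Set.uIoc_of_le (by positivity)] at h2
      exact ⟨h2.1, lt_of_le_of_ne h2.2 h1⟩
    refine intervalIntegral.tendsto_integral_filter_of_dominated_convergence (Bd a t) ?_ ?_
      (Bd_integrable a t) ?_
    · filter_upwards [hev] with ρ ⟨h4, h1⟩
      have hρ : 0 < ρ := by linarith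
      have hc : Continuous fun θ : ℝ => log⁺ ‖G (P a t (circleMap 0 ρ θ))‖ := by
        refine continuous_posLog.comp (continuous_norm.comp ?_)
        rw [continuous_iff_continuousAt]
        intro θ
        have hw : ‖circleMap 0 ρ θ‖ < 1 := by
          rw [norm_circleMap_zero, abs_of_pos hρ]; exact h1
        have c1 : ContinuousAt (fun θ : ℝ => circleMap 0 ρ θ) θ := (continuous_circleMap 0 ρ).continuousAt
        have c2 : ContinuousAt (P a t) (circleMap 0 ρ θ) :=
          (P_differentiableAt a t (one_sub_ne hw)).continuousAt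
        have c3 : ContinuousAt G (P a t (circleMap 0 ρ θ)) :=
          (G_analyticAt (by linarith [re_P (t := t) ha hw])).continuousAt
        exact ContinuousAt.comp (f := fun θ : ℝ => P a t (circleMap 0 ρ θ)) c3
          (ContinuousAt.comp (f := fun θ : ℝ => circleMap 0 ρ θ) c2 c1)
      exact hc.aestronglyMeasurable
    · filter_upwards [hev] with ρ ⟨h4, h1⟩
      filter_upwards [hae] with θ h2 h3
      obtain ⟨h5, h6⟩ := h2 h3
      rw [Real.norm_eq_abs, abs_of_nonneg posLog_nonneg]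
      exact dom ha h4 h1 (sin_half_pos h5 h6).ne'
    · filter_upwards [hae] with θ h2 h3
      obtain ⟨h5, h6⟩ := h2 h3
      have hs := sin_half_pos h5 h6
      rw [← P_circle a t h5 h6]
      have hne : 1 - circleMap 0 1 θ ≠ 0 := by
        have h7 := norm_one_sub (ρ := 1) (θ := θ) (by norm_num)
        intro h
        rw [h, norm_zero] at h7
        exact hs.ne' (abs_eq_zero.1 (le_antisymm h7 (abs_nonneg _)))
      have c1 : Tendsto (fun ρ : ℝ => circleMap 0 ρ θ) (𝓝[<] 1) (𝓝 (circleMap 0 1 θ)) := by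
        have : Continuous fun ρ : ℝ => circleMap 0 ρ θ := by
          unfold circleMap; fun_prop
        exact (this.tendsto 1).mono_left nhdsWithin_le_nhds
      have c2 : ContinuousAt (P a t) (circleMap 0 1 θ) := (P_differentiableAt a t hne).continuousAt
      have hre : -1 < (P a t (circleMap 0 1 θ)).re := by
        rw [P_circle a t h5 h6]
        simp
        norm_num
      have c3 : ContinuousAt G (P a t (circleMap 0 1 θ)) := (G_analyticAt hre).continuousAt
      have c4 : Tendsto (fun ρ : ℝ => G (P a t (circleMap 0 ρ θ))) (𝓝[<] 1)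
          (𝓝 (G (P a t (circleMap 0 1 θ)))) := c3.tendsto.comp (c2.tendsto.comp c1)
      exact (continuous_posLog.tendsto _).comp c4.norm
  have hge : ∀ᶠ ρ : ℝ in 𝓝[<] (1:ℝ), 2 * π * log⁺ ‖G (1 / 2 + a + t * Complex.I)‖ ≤
      ∫ θ in (0:ℝ)..2 * π, log⁺ ‖G (P a t (circleMap 0 ρ θ))‖ := by
    have h1 : ∀ᶠ ρ : ℝ in 𝓝[<] (1:ℝ), 1 / 4 < ρ :=
      nhdsWithin_le_nhds (Ioi_mem_nhds (by norm_num))
    filter_upwards [h1, self_mem_nhdsWithin] with ρ h2 h3
    have hρ : 0 < ρ := by linarith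
    have h3' : ρ < 1 := h3
    have h5 : AnalyticOnNhd ℂ (fun w => G (P a t w)) (Metric.closedBall 0 ρ) := by
      intro w hw
      have hw' : ‖w‖ < 1 := by
        rw [Metric.mem_closedBall, dist_zero_right] at hw
        linarith
      have c2 := P_differentiableAt a t (one_sub_ne hw')
      have c3 : AnalyticAt ℂ G (P a t w) := G_analyticAt (by linarith [re_P (t := t) ha hw'])
      exact c3.comp c2
    have h6 := posLog_submean hρ h5
    rw [P_zero, circleAverage_def, smul_eq_mul] at h6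
    rw [← div_eq_inv_mul, le_div_iff₀ (by positivity)] at h6
    linarith
  have h2 := ge_of_tendsto hlim hge
  rw [← div_eq_inv_mul, le_div_iff₀ (by positivity)]
  linarith

end Pool.Agent.H983R4.LH
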