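import Pool.Agent.H983R4.LH.P2

set_option autoImplicit false
open MeasureTheory Filter Topology Set Real

namespace Pool.Agent.H983R4.LH

/-- inverse of `θ ↦ t + a cot (θ/2)` -/
noncomputable def iv (a t x : ℝ) : ℝ := π - 2 * Real.arctan ((x - t) / a)

lemma iv_lip {a : ℝ} (ha : 0 < a) (t : ℝ) : LipschitzWith (Real.toNNReal (2 / a)) (iv a t) := by
  have hd : ∀ x, HasDerivAt (iv a t) (-(2 * (1 / (1 + ((x - t) / a) ^ 2) * (1 / a)))) x := by
    intro x
    have h1 : HasDerivAt (fun x : ℝ => (x - t) / a) (1 / a) x :=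
      ((hasDerivAt_id x).sub_const t).div_const a
    exact (h1.arctan.const_mul 2).const_sub π
  refine lipschitzWith_of_nnnorm_deriv_le (fun x => (hd x).differentiableAt) fun x => ?_
  rw [(hd x).deriv, ← NNReal.coe_le_coe, coe_nnnorm, Real.coe_toNNReal _ (by positivity), norm_neg,
    Real.norm_of_nonneg (by positivity)]
  have h2 : 1 / (1 + ((x - t) / a) ^ 2) ≤ 1 := by
    rw [div_le_one (by positivity)]
    nlinarith [sq_nonneg ((x - t) / a)]
  have h3 : 0 < 1 / a := by positivity
  calc 2 * (1 / (1 + ((x - t) / a) ^ 2) * (1 / a)) ≤ 2 * (1 * (1 / a)) := by gcongr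
    _ = 2 / a := by ring

lemma iv_eq {a : ℝ} (ha : 0 < a) (t : ℝ) {θ : ℝ} (h0 : 0 < θ) (h1 : θ < 2 * π) :
    iv a t (t + a * ct θ) = θ := by
  unfold iv
  have e1 : (t + a * ct θ - t) / a = ct θ := by field_simp; ring
  have e2 : ct θ = Real.tan (π / 2 - θ / 2) := by
    rw [Real.tan_eq_sin_div_cos, Real.sin_pi_div_two_sub, Real.cos_pi_div_two_sub]
    rfl
  rw [e1, e2, Real.arctan_tan (by linarith) (by linarith)]
  ring

lemma vol_pre {a : ℝ} (ha : 0 < a) (t : ℝ) (E : Set ℝ) :
    volume {θ : ℝ | (0 < θ ∧ θ < 2 * π) ∧ t + a * ct θ ∈ E} ≤ ENNReal.ofReal (2 / a) * volume E := by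
  have h1 : {θ : ℝ | (0 < θ ∧ θ < 2 * π) ∧ t + a * ct θ ∈ E} ⊆ iv a t '' E := by
    rintro θ ⟨⟨h0, h1⟩, h2⟩
    exact ⟨_, h2, iv_eq ha t h0 h1⟩
  have h2 := (iv_lip ha t).hausdorffMeasure_image_le (d := 1) zero_le_one E
  rw [hausdorffMeasure_real, ENNReal.rpow_one] at h2
  exact (measure_mono h1).trans h2

/-- the weight of the tail -/
noncomputable def ps (θ : ℝ) : ℝ := Real.log (1 + |ct θ|)

lemma ps_nonneg (θ : ℝ) : 0 ≤ ps θ := Real.log_nonneg (by linarith [abs_nonneg (ct θ)])

lemma ct_measurable : Measurable ct := by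
  unfold ct
  fun_prop

lemma ps_measurable : Measurable ps := by
  unfold ps
  have := ct_measurable
  fun_prop

lemma ps_le {θ : ℝ} (h0 : 0 < θ) (h1 : θ < 2 * π) :
    ps θ ≤ Real.log 2 - Real.log (Real.sin (θ / 2)) := by
  have hs := sin_half_pos h0 h1
  unfold ps
  rw [← Real.log_div (by norm_num) hs.ne']
  refine Real.log_le_log (by positivity) ?_
  unfold ct
  rw [abs_div, abs_of_pos hs, le_div_iff₀ hs, add_mul, div_mul_cancel₀ _ hs.ne']
  have h2 := Real.abs_cos_le_one (θ / 2)
  have h3 := Real.sin_le_one (θ / 2)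
  linarith

lemma ae_mem : ∀ᵐ θ : ℝ ∂(volume.restrict (Set.Ioc 0 (2 * π))), 0 < θ ∧ θ < 2 * π := by
  rw [ae_restrict_iff' measurableSet_Ioc]
  have : ∀ᵐ θ : ℝ ∂volume, θ ≠ 2 * π := by
    simp [ae_iff, measure_singleton]
  filter_upwards [this] with θ h1 h2
  exact ⟨h2.1, lt_of_le_of_ne h2.2 h1⟩

lemma ps_integrable : Integrable ps (volume.restrict (Set.Ioc 0 (2 * π))) := by
  have h1 : IntervalIntegrable (fun θ : ℝ => Real.log 2 - Real.log (Real.sin (θ / 2))) volume 0
      (2 * π) := by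
    have h := Bd_integrable 0 0
    unfold Bd at h
    have h2 := ((h.sub (intervalIntegrable_const (c := Real.log 3))).const_mul (1 / 2)).add
      (intervalIntegrable_const (c := Real.log 2 - Real.log (3 / 2 + |0| + 2 * 0)))
    refine h2.congr ?_
    intro x _
    simp only []
    ring
  rw [intervalIntegrable_iff_integrableOn_Ioc_of_le (by positivity)] at h1
  refine Integrable.mono' h1 ps_measurable.aestronglyMeasurable ?_
  filter_upwards [ae_mem] with θ ⟨h2, h3⟩
  rw [Real.norm_of_nonneg (ps_nonneg θ)]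
  exact ps_le h2 h3

/-- `∫ ps` -/
noncomputable def C0 : ℝ := ∫ θ in Set.Ioc 0 (2 * π), ps θ

lemma C0_nonneg : 0 ≤ C0 := integral_nonneg fun θ => ps_nonneg θ

/-- the exceptional set -/
def Ex (κ T h : ℝ) : Set ℝ :=
  {x : ℝ | |x - T| ≤ h ∧ T ^ κ < ‖riemannZeta (1 / 2 + x * Complex.I)‖}

/-- crude bound -/
noncomputable def MM (T : ℝ) : ℝ := Real.log 3 + 2 * Real.log (T + 3)

lemma MM_nonneg {T : ℝ} (hT : 0 ≤ T) : 0 ≤ MM T := by
  unfold MM
  have := Real.log_nonneg (show (1:ℝ) ≤ 3 by norm_num)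
  have := Real.log_nonneg (show (1:ℝ) ≤ T + 3 by linarith)
  linarith

lemma pointwise {κ T h r a t x : ℝ} (hκ : 0 < κ) (hT : 1 ≤ T) (h0 : 0 < h) (h1 : h ≤ 1)
    (hr : r ≤ h / 2) (ha : 0 < a) (har : a ≤ r) (ht : |t - T| ≤ r) {θ : ℝ}
    (hx : x = t + a * ct θ) :
    log⁺ ‖G (1 / 2 + (x : ℂ) * Complex.I)‖ ≤
      κ * Real.log T + (Ex κ T h).indicator (fun _ : ℝ => MM T) x +
        (MM T / Real.log (1 + h / (2 * r)) + 2) * ps θ := by
  have hr0 : 0 < r := lt_of_lt_of_le ha har
  have hM := MM_nonneg (show 0 ≤ T by linarith)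
  have hL : 0 ≤ Real.log T := Real.log_nonneg hT
  have hΛ : 0 < Real.log (1 + h / (2 * r)) := Real.log_pos (by
    have : 0 < h / (2 * r) := by positivity
    linarith)
  have hp := ps_nonneg θ
  have hc : 0 ≤ (MM T / Real.log (1 + h / (2 * r)) + 2) * ps θ := by positivity
  have hκL : 0 ≤ κ * Real.log T := by positivity
  have hn : ‖(1 / 2 + (x : ℂ) * Complex.I)‖ ≤ 1 / 2 + |x| := by
    refine (norm_add_le _ _).trans ?_
    rw [norm_mul, Complex.norm_I, mul_one, Complex.norm_real, Real.norm_eq_abs]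
    simp
  have hg : log⁺ ‖G (1 / 2 + (x : ℂ) * Complex.I)‖ ≤
      Real.log 3 + 2 * Real.log (‖(1 / 2 + (x : ℂ) * Complex.I)‖ + 1) :=
    posLog_G_le (by simp)
  by_cases hxT : |x - T| ≤ h
  · by_cases hE : x ∈ Ex κ T h
    · rw [indicator_of_mem hE]
      have h2 : |x| ≤ T + 1 := by
        have := abs_sub_abs_le_abs_sub x T
        rw [abs_of_pos (show (0:ℝ) < T by linarith)] at this
        linarith
      have h3 : Real.log (‖(1 / 2 + (x : ℂ) * Complex.I)‖ + 1) ≤ Real.log (T + 3) :=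
        Real.log_le_log (by positivity) (by linarith)
      unfold MM at *
      linarith
    · rw [indicator_of_notMem hE]
      have h2 : ‖riemannZeta (1 / 2 + x * Complex.I)‖ ≤ T ^ κ := by
        by_contra hcon
        push Not at hcon
        exact hE ⟨hxT, hcon⟩
      have h3 : ‖G (1 / 2 + (x : ℂ) * Complex.I)‖ ≤ T ^ κ := by
        refine (G_le_zeta (by simp) ?_).trans h2
        intro hcon
        have := congrArg Complex.re hcon
        simp at this
      have h4 := posLog_le_posLog (norm_nonneg _) h3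
      have h5 : log⁺ (T ^ κ) = κ * Real.log T := by
        rw [posLog_eq_log, Real.log_rpow (by linarith)]
        rw [abs_of_nonneg (by positivity)]
        exact Real.one_le_rpow hT hκ.le
      linarith
  · push Not at hxT
    have hnE : x ∉ Ex κ T h := fun hcon => absurd hcon.1 (not_le.2 hxT)
    rw [indicator_of_notMem hnE]
    have h2 : h / 2 < a * |ct θ| := by
      have h3 : |x - T| ≤ |t - T| + a * |ct θ| := by
        have : x - T = (t - T) + a * ct θ := by rw [hx]; ring
        rw [this]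
        refine (abs_add_le _ _).trans ?_
        rw [abs_mul, abs_of_pos ha]
      linarith
    have h3 : h / (2 * r) ≤ |ct θ| := by
      rw [div_le_iff₀ (by positivity)]
      have : a * |ct θ| ≤ r * |ct θ| := mul_le_mul_of_nonneg_right har (abs_nonneg _)
      linarith
    have h4 : Real.log (1 + h / (2 * r)) ≤ ps θ := by
      unfold ps
      exact Real.log_le_log (by positivity) (by linarith)
    have h5 : |x| ≤ T + 1 / 2 + |ct θ| := by
      have e : x = (t - T) + T + a * ct θ := by rw [hx]; ring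
      rw [e]
      refine (abs_add_le _ _).trans ((add_le_add (abs_add_le _ _) le_rfl).trans ?_)
      rw [abs_mul, abs_of_pos ha, abs_of_pos (show (0:ℝ) < T by linarith)]
      have : a * |ct θ| ≤ 1 * |ct θ| := mul_le_mul_of_nonneg_right (by linarith) (abs_nonneg _)
      linarith
    have h6 : ‖(1 / 2 + (x : ℂ) * Complex.I)‖ + 1 ≤ (T + 3) * (1 + |ct θ|) := by
      have := abs_nonneg (ct θ)
      nlinarith
    have h7 : Real.log (‖(1 / 2 + (x : ℂ) * Complex.I)‖ + 1) ≤ Real.log (T + 3) + ps θ := by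
      have h8 := Real.log_le_log (by positivity) h6
      rwa [Real.log_mul (by positivity) (by positivity)] at h8
    have h9 : MM T ≤ MM T / Real.log (1 + h / (2 * r)) * ps θ := by
      rw [div_mul_eq_mul_div, le_div_iff₀ hΛ]
      exact mul_le_mul_of_nonneg_left h4 hM
    unfold MM at *
    nlinarith

/-- bound inside the half plane -/
lemma inner {κ T h r a t m : ℝ} (hκ : 0 < κ) (hT : 1 ≤ T) (h0 : 0 < h) (h1 : h ≤ 1)
    (hr : r ≤ h / 2) (ha : 0 < a) (har : a ≤ r) (ht : |t - T| ≤ r) (hm : 0 ≤ m)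
    (hE : volume (Ex κ T h) ≤ ENNReal.ofReal m) :
    log⁺ ‖G (1 / 2 + a + t * Complex.I)‖ ≤
      κ * Real.log T + MM T * m / (π * a) +
        (MM T / Real.log (1 + h / (2 * r)) + 2) * C0 / (2 * π) := by
  have hpi := Real.pi_pos
  have hM := MM_nonneg (show 0 ≤ T by linarith)
  refine (poisson ha t).trans ?_
  rw [← div_eq_inv_mul, div_le_iff₀ (by positivity)]
  rw [intervalIntegral.integral_of_le (by positivity)]
  set V : Set ℝ := {θ : ℝ | (0 < θ ∧ θ < 2 * π) ∧ t + a * ct θ ∈ Ex κ T h} with hV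
  set W := toMeasurable volume V with hW
  have hWm : MeasurableSet W := measurableSet_toMeasurable _ _
  have hWv : volume W ≤ ENNReal.ofReal (2 / a * m) := by
    rw [hW, measure_toMeasurable]
    refine (vol_pre ha t _).trans ?_
    rw [ENNReal.ofReal_mul (by positivity)]
    exact mul_le_mul_right hE _
  set A := MM T / Real.log (1 + h / (2 * r)) + 2 with hA
  have hg1 : Integrable (fun _ : ℝ => κ * Real.log T) (volume.restrict (Set.Ioc 0 (2 * π))) :=
    integrable_const _
  have hWv' : (volume.restrict (Set.Ioc 0 (2 * π))) W ≤ ENNReal.ofReal (2 / a * m) :=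
    (Measure.restrict_apply_le _ _).trans hWv
  have hg2 : Integrable (W.indicator (fun _ : ℝ => MM T)) (volume.restrict (Set.Ioc 0 (2 * π))) :=
    (integrable_const _).indicator hWm
  have hg3 : Integrable (fun θ => A * ps θ) (volume.restrict (Set.Ioc 0 (2 * π))) :=
    ps_integrable.const_mul A
  have hle : ∫ θ in Set.Ioc 0 (2 * π), log⁺ ‖G (1 / 2 + ((t + a * ct θ : ℝ) : ℂ) * Complex.I)‖ ≤
      ∫ θ in Set.Ioc 0 (2 * π), (κ * Real.log T + W.indicator (fun _ : ℝ => MM T) θ + A * ps θ) := by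
    refine integral_mono_of_nonneg (Eventually.of_forall fun θ => posLog_nonneg)
      ((hg1.add hg2).add hg3) ?_
    filter_upwards [ae_mem] with θ hθ
    have h2 := pointwise (θ := θ) hκ hT h0 h1 hr ha har ht rfl
    refine h2.trans ?_
    have h3 : (Ex κ T h).indicator (fun _ : ℝ => MM T) (t + a * ct θ) ≤
        W.indicator (fun _ : ℝ => MM T) θ := by
      by_cases h4 : t + a * ct θ ∈ Ex κ T h
      · have h5 : θ ∈ V := ⟨hθ, h4⟩
        rw [indicator_of_mem h4, indicator_of_mem (subset_toMeasurable volume V h5)]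
      · rw [indicator_of_notMem h4]
        exact indicator_nonneg (fun _ _ => hM) θ
    show κ * Real.log T + (Ex κ T h).indicator (fun _ : ℝ => MM T) (t + a * ct θ) + A * ps θ ≤
      κ * Real.log T + W.indicator (fun _ : ℝ => MM T) θ + A * ps θ
    linarith
  refine hle.trans ?_
  have e1 : ∫ θ in Set.Ioc 0 (2 * π), (κ * Real.log T + W.indicator (fun _ : ℝ => MM T) θ + A * ps θ) =
      2 * π * (κ * Real.log T) + (∫ θ in Set.Ioc 0 (2 * π), W.indicator (fun _ : ℝ => MM T) θ) +
        A * C0 := by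
    have e4 := integral_add (f := fun θ => κ * Real.log T + W.indicator (fun _ : ℝ => MM T) θ)
      (g := fun θ => A * ps θ) (hg1.add hg2) hg3
    have e5 := integral_add (f := fun _ : ℝ => κ * Real.log T)
      (g := fun θ => W.indicator (fun _ : ℝ => MM T) θ) hg1 hg2
    have e6 : (volume.restrict (Set.Ioc 0 (2 * π))).real Set.univ = 2 * π := by
      simp [Measure.real, Real.volume_Ioc, hpi.le]
    have e7 : ∫ θ in Set.Ioc 0 (2 * π), A * ps θ = A * C0 := by
      unfold C0
      exact integral_const_mul A ps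
    have e8 : ∫ _ in Set.Ioc 0 (2 * π), κ * Real.log T = 2 * π * (κ * Real.log T) := by
      rw [integral_const, e6, smul_eq_mul]
    rw [e4, e5, e7, e8]
  have e2 : ∫ θ in Set.Ioc 0 (2 * π), W.indicator (fun _ : ℝ => MM T) θ ≤ 2 / a * m * MM T := by
    rw [integral_indicator hWm, integral_const, smul_eq_mul]
    refine mul_le_mul_of_nonneg_right ?_ hM
    rw [Measure.real, Measure.restrict_apply_univ]
    exact ENNReal.toReal_le_of_le_ofReal (by positivity) hWv'
  rw [e1]
  have e3 : (κ * Real.log T + MM T * m / (π * a) + A * C0 / (2 * π)) * (2 * π) =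
      2 * π * (κ * Real.log T) + 2 / a * m * MM T + A * C0 := by
    field_simp
  rw [e3]
  linarith

end Pool.Agent.H983R4.LH
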