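import Pool.Agent.H983R4.LH.P3

set_option autoImplicit false
open MeasureTheory Filter Topology Set Real

namespace Pool.Agent.H983R4.LH

lemma conj_half (σ t : ℝ) : (starRingEnd ℂ) (1 / 2 + σ + t * Complex.I) = 1 / 2 + σ - t * Complex.I := by
  rw [map_add, map_add, map_mul, Complex.conj_ofReal, Complex.conj_ofReal, Complex.conj_I, map_div₀,
    map_one, Complex.conj_ofNat]
  ring

/-- the functional equation, as an inequality -/
lemma zeta_left : ∃ K : ℝ, 0 < K ∧ ∀ σ t : ℝ, 0 ≤ σ → σ ≤ 1 / 2 → 1 ≤ t →
    log⁺ ‖riemannZeta (1 / 2 - σ + t * Complex.I)‖ ≤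
      K + σ * Real.log t + log⁺ ‖riemannZeta (1 / 2 + σ + t * Complex.I)‖ := by
  obtain ⟨K, hK, hX⟩ := H345.Chi.XX_size
  refine ⟨K, hK, fun σ t h0 h1 ht => ?_⟩
  set s : ℂ := 1 / 2 + σ + t * Complex.I with hs
  have hre : s.re = 1 / 2 + σ := by simp [hs]
  have him : s.im = t := by simp [hs]
  have hcre : ((starRingEnd ℂ) s).re = 1 / 2 + σ := by rw [Complex.conj_re, hre]
  have hcim : ((starRingEnd ℂ) s).im = -t := by rw [Complex.conj_im, him]
  have h2 := H345.zeta_fe ((starRingEnd ℂ) s) (by
    intro n hn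
    have := congrArg Complex.im hn
    rw [hcim] at this
    simp at this
    linarith) (by
    intro hn
    have := congrArg Complex.im hn
    rw [hcim] at this
    simp at this
    linarith)
  have e1 : 1 - (starRingEnd ℂ) s = 1 / 2 - σ + t * Complex.I := by
    rw [hs, conj_half]; ring
  rw [e1, H345.Chi.XX_conj, riemannZeta_conj] at h2
  have h3 : ‖riemannZeta (1 / 2 - σ + t * Complex.I)‖ ≤ Real.exp K * t ^ σ * ‖riemannZeta s‖ := by
    rw [h2, norm_mul, Complex.norm_conj, Complex.norm_conj]
    have h4 := (hX s (by rw [hre]; linarith) (by rw [hre]; linarith) (by rw [him]; exact ht)).2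
    rw [hre, him] at h4
    rw [show 1 / 2 + σ - 1 / 2 = σ by ring] at h4
    exact mul_le_mul_of_nonneg_right h4 (norm_nonneg _)
  have ht0 : 0 < t := by linarith
  have h4 := posLog_le_posLog (norm_nonneg _) h3
  have h5 : log⁺ (Real.exp K * t ^ σ * ‖riemannZeta s‖) ≤ log⁺ (Real.exp K * t ^ σ) +
      log⁺ ‖riemannZeta s‖ := posLog_mul
  have h6 : log⁺ (Real.exp K * t ^ σ) = K + σ * Real.log t := by
    rw [posLog_eq_log, Real.log_mul (Real.exp_pos K).ne' (by positivity), Real.log_exp,
      Real.log_rpow ht0]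
    rw [abs_of_nonneg (by positivity)]
    have h7 : 1 ≤ Real.exp K := Real.one_le_exp hK.le
    have h8 : 1 ≤ t ^ σ := Real.one_le_rpow ht h0
    nlinarith
  linarith

/-- `-log |cos|` -/
noncomputable def lc (θ : ℝ) : ℝ := -Real.log (Real.cos θ)

lemma lc_nonneg (θ : ℝ) : 0 ≤ lc θ := by
  unfold lc
  rw [neg_nonneg, ← Real.log_abs]
  exact Real.log_nonpos (abs_nonneg _) (Real.abs_cos_le_one θ)

lemma lc_integrable : Integrable lc (volume.restrict (Set.Ioc 0 (2 * π))) := by
  have h1 := (intervalIntegrable_log_cos (a := 0) (b := 2 * π)).neg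
  rw [intervalIntegrable_iff_integrableOn_Ioc_of_le (by positivity)] at h1
  exact h1

noncomputable def C1 : ℝ := ∫ θ in Set.Ioc 0 (2 * π), lc θ

lemma C1_nonneg : 0 ≤ C1 := integral_nonneg fun θ => lc_nonneg θ

/-- **the local inequality** -/
lemma local_bound : ∃ K : ℝ, 0 < K ∧ ∀ κ T h r m d : ℝ, 0 < κ → 2 ≤ T → 0 < h → h ≤ 1 → 0 < r →
    r ≤ h / 2 → 0 ≤ m → 0 < d → d < 1 → volume (Ex κ T h) ≤ ENNReal.ofReal m →
    log⁺ ‖riemannZeta (1 / 2 + T * Complex.I)‖ ≤ K + r * Real.log (T + 1) + κ * Real.log T +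
      MM T * (m / (π * (r * d)) + C0 / (2 * π * Real.log (1 + h / (2 * r))) +
        C1 / (2 * π * Real.log (1 / d))) := by
  obtain ⟨K, hK, hfe⟩ := zeta_left
  have hpi := Real.pi_pos
  have hl3 : 0 < Real.log 3 := Real.log_pos (by norm_num)
  refine ⟨K + Real.log 3 + 2 * C0 / (2 * π), by have := C0_nonneg; positivity, ?_⟩
  intro κ T h r m d hκ hT h0 h1 hr0 hr hm hd0 hd1 hE
  have hM := MM_nonneg (show 0 ≤ T by linarith)
  have hΛ : 0 < Real.log (1 + h / (2 * r)) := Real.log_pos (by
    have : 0 < h / (2 * r) := by positivity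
    linarith)
  have hD : 0 < Real.log (1 / d) := Real.log_pos (by rw [lt_div_iff₀ hd0]; linarith)
  have hLT : 0 ≤ Real.log T := Real.log_nonneg (by linarith)
  have hLT1 : 0 ≤ Real.log (T + 1) := Real.log_nonneg (by linarith)
  -- analyticity
  have han : AnalyticOnNhd ℂ riemannZeta (Metric.closedBall (1 / 2 + T * Complex.I) r) := by
    have hd : DifferentiableOn ℂ riemannZeta {1}ᶜ := fun s hs =>
      (differentiableAt_riemannZeta hs).differentiableWithinAt
    have ha := hd.analyticOnNhd isOpen_compl_singleton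
    refine ha.mono fun s hs => ?_
    rintro (rfl : s = 1)
    rw [Metric.mem_closedBall, dist_eq_norm] at hs
    have h2 := Complex.abs_im_le_norm (1 - (1 / 2 + T * Complex.I))
    have h3 : (1 - (1 / 2 + (T : ℂ) * Complex.I)).im = -T := by simp
    rw [h3, abs_neg, abs_of_pos (by linarith)] at h2
    linarith
  have hsub := posLog_submean hr0 han
  rw [circleAverage_def, smul_eq_mul, ← div_eq_inv_mul, le_div_iff₀ (by positivity),
    intervalIntegral.integral_of_le (by positivity)] at hsub
  set B : ℝ := K + Real.log 3 + r * Real.log (T + 1) + (κ * Real.log T + MM T * m / (π * (r * d)) +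
    (MM T / Real.log (1 + h / (2 * r)) + 2) * C0 / (2 * π)) with hB
  have hC0 := C0_nonneg
  have hpt : ∀ θ : ℝ, Real.cos θ ≠ 0 →
      log⁺ ‖riemannZeta (circleMap (1 / 2 + T * Complex.I) r θ)‖ ≤
      B + MM T / Real.log (1 / d) * lc θ := by
    intro θ hcz
    set σ : ℝ := r * |Real.cos θ| with hσ
    set t : ℝ := T + r * Real.sin θ with ht
    have hσ0 : 0 ≤ σ := by positivity
    have hcos := Real.abs_cos_le_one θ
    have hσr : σ ≤ r := by
      rw [hσ]; nlinarith
    have hsin := Real.abs_sin_le_one θ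
    have htT : |t - T| ≤ r := by
      rw [ht, add_sub_cancel_left, abs_mul, abs_of_pos hr0]
      nlinarith
    have htT' := abs_le.1 htT
    have ht1 : 1 ≤ t := by linarith [htT'.1]
    -- the right point
    set s : ℂ := 1 / 2 + σ + t * Complex.I with hs
    have hstep : log⁺ ‖riemannZeta (circleMap (1 / 2 + T * Complex.I) r θ)‖ ≤
        K + r * Real.log (T + 1) + log⁺ ‖riemannZeta s‖ := by
      have hcm : circleMap (1 / 2 + T * Complex.I) r θ =
          1 / 2 + ((r * Real.cos θ : ℝ) : ℂ) + t * Complex.I := by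
        rw [circleMap, Complex.exp_mul_I, ht]
        push_cast
        ring
      have hlog : σ * Real.log t ≤ r * Real.log (T + 1) := by
        refine mul_le_mul hσr (Real.log_le_log (by linarith) (by linarith [htT'.2]))
          (Real.log_nonneg ht1) hr0.le
      rcases le_total 0 (Real.cos θ) with hc | hc
      · have : circleMap (1 / 2 + T * Complex.I) r θ = s := by
          rw [hcm, hs, hσ, abs_of_nonneg hc]
        rw [this]
        have : 0 ≤ r * Real.log (T + 1) := by positivity
        linarith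
      · have : circleMap (1 / 2 + T * Complex.I) r θ = 1 / 2 - σ + t * Complex.I := by
          rw [hcm, hσ, abs_of_nonpos hc]
          push_cast
          ring
        rw [this]
        have := hfe σ t hσ0 (by linarith) ht1
        linarith
    have hsre : s.re = 1 / 2 + σ := by simp [hs]
    have hsim : s.im = t := by simp [hs]
    have hs1 : 1 ≤ ‖s - 1‖ := by
      have h2 := Complex.abs_im_le_norm (s - 1)
      rw [Complex.sub_im, Complex.one_im, sub_zero, hsim, abs_of_pos (by linarith)] at h2
      linarith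
    have hG := posLog_zeta_le (s := s) (by rw [hsre]; linarith) hs1
    have hlc := lc_nonneg θ
    have hpos : 0 < |Real.cos θ| := abs_pos.2 hcz
    by_cases hcd : |Real.cos θ| < d
    · -- near the line
      have h2 : Real.log (1 / d) ≤ lc θ := by
        unfold lc
        rw [← Real.log_abs (Real.cos θ), one_div, Real.log_inv]
        have := Real.log_le_log hpos hcd.le
        linarith
      have h3 : MM T ≤ MM T / Real.log (1 / d) * lc θ := by
        rw [div_mul_eq_mul_div, le_div_iff₀ hD]
        exact mul_le_mul_of_nonneg_left h2 hM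
      have h4 : log⁺ ‖G s‖ ≤ MM T := by
        refine (posLog_G_le (s := s) (by rw [hsre]; linarith)).trans ?_
        unfold MM
        have h5 : ‖s‖ ≤ 1 / 2 + σ + t := by
          have h6 : ‖s‖ ≤ |s.re| + |s.im| := Complex.norm_le_abs_re_add_abs_im s
          rw [hsre, hsim, abs_of_nonneg (by linarith), abs_of_pos (by linarith)] at h6
          exact h6
        have h7 : Real.log (‖s‖ + 1) ≤ Real.log (T + 3) :=
          Real.log_le_log (by positivity) (by linarith [htT'.2])
        linarith
      have h5 : 0 ≤ MM T * m / (π * (r * d)) := by positivity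
      have h6 : 0 ≤ (MM T / Real.log (1 + h / (2 * r)) + 2) * C0 / (2 * π) := by positivity
      have h7 : 0 ≤ κ * Real.log T := by positivity
      rw [hB]
      linarith
    · push Not at hcd
      have hσd : r * d ≤ σ := by
        rw [hσ]
        exact mul_le_mul_of_nonneg_left hcd hr0.le
      have hσpos : 0 < σ := lt_of_lt_of_le (by positivity) hσd
      have h2 := inner hκ (by linarith : (1:ℝ) ≤ T) h0 h1 hr hσpos hσr htT hm hE
      have h3 : MM T * m / (π * σ) ≤ MM T * m / (π * (r * d)) := by
        refine div_le_div_of_nonneg_left (by positivity) (by positivity) ?_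
        exact mul_le_mul_of_nonneg_left hσd hpi.le
      have h4 : 0 ≤ MM T / Real.log (1 / d) * lc θ := by positivity
      have h5 : log⁺ ‖G s‖ ≤ κ * Real.log T + MM T * m / (π * σ) +
        (MM T / Real.log (1 + h / (2 * r)) + 2) * C0 / (2 * π) := h2
      rw [hB]
      linarith
  have hae : ∀ᵐ θ : ℝ ∂(volume.restrict (Set.Ioc 0 (2 * π))), Real.cos θ ≠ 0 := by
    refine ae_restrict_of_ae ?_
    have hcount : {θ : ℝ | Real.cos θ = 0}.Countable := by
      have : {θ : ℝ | Real.cos θ = 0} ⊆ Set.range (fun k : ℤ => (2 * (k : ℝ) + 1) * π / 2) := by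
        intro θ hθ
        obtain ⟨k, hk⟩ := Real.cos_eq_zero_iff.1 hθ
        exact ⟨k, hk.symm⟩
      exact (Set.countable_range _).mono this
    have h2 := hcount.measure_zero volume
    rw [ae_iff]
    simpa using h2
  have hint : Integrable (fun θ : ℝ => B + MM T / Real.log (1 / d) * lc θ)
      (volume.restrict (Set.Ioc 0 (2 * π))) :=
    (integrable_const _).add (lc_integrable.const_mul _)
  have hle : ∫ θ in Set.Ioc 0 (2 * π), log⁺ ‖riemannZeta (circleMap (1 / 2 + T * Complex.I) r θ)‖ ≤
      ∫ θ in Set.Ioc 0 (2 * π), (B + MM T / Real.log (1 / d) * lc θ) := by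
    refine integral_mono_of_nonneg (Eventually.of_forall fun θ => posLog_nonneg) hint ?_
    filter_upwards [hae] with θ hθ
    exact hpt θ hθ
  have e1 : ∫ θ in Set.Ioc 0 (2 * π), (B + MM T / Real.log (1 / d) * lc θ) =
      2 * π * B + MM T / Real.log (1 / d) * C1 := by
    have e4 := integral_add (μ := volume.restrict (Set.Ioc 0 (2 * π))) (f := fun _ : ℝ => B)
      (g := fun θ => MM T / Real.log (1 / d) * lc θ) (integrable_const _) (lc_integrable.const_mul _)
    have e6 : (volume.restrict (Set.Ioc 0 (2 * π))).real Set.univ = 2 * π := by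
      simp [Measure.real, Real.volume_Ioc, hpi.le]
    have e7 : ∫ θ in Set.Ioc 0 (2 * π), MM T / Real.log (1 / d) * lc θ =
        MM T / Real.log (1 / d) * C1 := by
      unfold C1
      exact integral_const_mul _ lc
    have e8 : ∫ _ in Set.Ioc 0 (2 * π), B = 2 * π * B := by
      rw [integral_const, e6, smul_eq_mul]
    rw [e4, e7, e8]
  rw [e1] at hle
  have e2 : (K + Real.log 3 + 2 * C0 / (2 * π) + r * Real.log (T + 1) + κ * Real.log T +
      MM T * (m / (π * (r * d)) + C0 / (2 * π * Real.log (1 + h / (2 * r))) +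
        C1 / (2 * π * Real.log (1 / d)))) * (2 * π) = 2 * π * B + MM T / Real.log (1 / d) * C1 := by
    rw [hB]
    have := hΛ.ne'
    have := hD.ne'
    field_simp
    ring
  have h9 : log⁺ ‖riemannZeta (1 / 2 + T * Complex.I)‖ * (2 * π) ≤
    (K + Real.log 3 + 2 * C0 / (2 * π) + r * Real.log (T + 1) + κ * Real.log T +
      MM T * (m / (π * (r * d)) + C0 / (2 * π * Real.log (1 + h / (2 * r))) +
        C1 / (2 * π * Real.log (1 / d)))) * (2 * π) := by
    rw [e2]
    exact hsub.trans hle
  exact le_of_mul_le_mul_right h9 (by positivity)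

end Pool.Agent.H983R4.LH
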