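import Pool.Agent.H983R4.LH.P5

set_option autoImplicit false
open MeasureTheory Filter Topology Set Real

namespace Pool.Agent.H983R4.LH

/-- the exceptional set on the whole line -/
def SS (ε : ℝ) : Set ℝ := {t : ℝ | (1 + |t|) ^ ε < ‖riemannZeta (1 / 2 + t * Complex.I)‖}

lemma SS_meas {ε : ℝ} (hε : 0 < ε) : MeasurableSet (SS ε) := by
  unfold SS
  refine measurableSet_lt (Continuous.measurable ?_) zeta_line_cont.norm.measurable
  exact (continuous_const.add continuous_abs).rpow_const fun x => Or.inr hε.le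

lemma finite_of_adm {κ₀ : ℝ} (hκ : 0 ≤ κ₀) (h : Adm κ₀) {ε : ℝ} (hε : 0 < ε) :
    volume (SS (κ₀ + ε)) < ⊤ := by
  obtain ⟨C, hC⟩ := h (ε / 2) (by linarith)
  have h1 : Tendsto (fun r : ℝ => (1 + r) ^ (ε / 2)) atTop atTop :=
    (tendsto_rpow_atTop (by linarith)).comp (tendsto_atTop_add_const_left _ _ tendsto_id)
  obtain ⟨R, hR⟩ := eventually_atTop.1 (h1.eventually_ge_atTop C)
  have h2 : SS (κ₀ + ε) ⊆ Icc (-R) R := by
    intro t ht
    have ht' : (1 + |t|) ^ (κ₀ + ε) < ‖riemannZeta (1 / 2 + t * Complex.I)‖ := ht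
    rw [mem_Icc, ← abs_le]
    by_contra hcon
    push Not at hcon
    have h3 := hR |t| hcon.le
    have h4 := hC t
    have hpos : 0 < 1 + |t| := by positivity
    have h5 : (1 + |t|) ^ (κ₀ + ε) = (1 + |t|) ^ (ε / 2) * (1 + |t|) ^ (κ₀ + ε / 2) := by
      rw [← Real.rpow_add hpos]; congr 1; ring
    have h6 : C * (1 + |t|) ^ (κ₀ + ε / 2) ≤ (1 + |t|) ^ (ε / 2) * (1 + |t|) ^ (κ₀ + ε / 2) :=
      mul_le_mul_of_nonneg_right h3 (by positivity)
    linarith
  exact (measure_mono h2).trans_lt (by rw [Real.volume_Icc]; exact ENNReal.ofReal_lt_top)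

lemma adm_of_finite {κ₀ : ℝ} (hκ : 0 ≤ κ₀) (h : ∀ ε : ℝ, 0 < ε → volume (SS (κ₀ + ε)) < ⊤) :
    Adm κ₀ := by
  refine adm_of_windows hκ (w := fun _ => 1) (fun _ => ⟨one_pos, le_rfl⟩) fun ε hε => ?_
  set e : ℝ := κ₀ + ε / 2 with he
  have he0 : 0 < e := by rw [he]; linarith
  have hfin := h (ε / 2) (by linarith)
  rw [← he] at hfin
  have h1 : Tendsto (fun T : ℝ => volume (SS e ∩ Ici (T - 1))) atTop (𝓝 0) := by
    have h2 := tendsto_measure_iInter_atTop (μ := volume) (s := fun T : ℝ => SS e ∩ Ici (T - 1))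
      (fun T => ((SS_meas he0).inter measurableSet_Ici).nullMeasurableSet)
      (fun a b hab => inter_subset_inter_right _ (Ici_subset_Ici.2 (by linarith)))
      ⟨0, ((measure_mono inter_subset_left).trans_lt hfin).ne⟩
    have h3 : (⋂ T : ℝ, SS e ∩ Ici (T - 1)) = ∅ := by
      rw [Set.eq_empty_iff_forall_notMem]
      intro x hx
      have := (Set.mem_iInter.1 hx (x + 2)).2
      rw [mem_Ici] at this
      linarith
    rw [h3, measure_empty] at h2
    exact h2
  refine tendsto_of_tendsto_of_tendsto_of_le_of_le' tendsto_const_nhds h1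
    (Eventually.of_forall fun _ => bot_le) ?_
  have h10 : Tendsto (fun T : ℝ => T ^ (ε / 2)) atTop atTop := tendsto_rpow_atTop (by linarith)
  filter_upwards [eventually_ge_atTop 2, h10.eventually_ge_atTop (2 ^ e)] with T hT h11
  simp only [ENNReal.ofReal_one, div_one]
  refine measure_mono ?_
  rintro x ⟨hx1, hx2⟩
  have hx1' := abs_le.1 hx1
  refine ⟨?_, by rw [mem_Ici]; linarith [hx1'.1]⟩
  show (1 + |x|) ^ e < ‖riemannZeta (1 / 2 + x * Complex.I)‖
  refine lt_of_le_of_lt ?_ hx2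
  have h5 : |x| ≤ T + 1 := by
    have := abs_sub_abs_le_abs_sub x T
    rw [abs_of_pos (show (0:ℝ) < T by linarith)] at this
    linarith
  have h6 : (1 + |x|) ^ e ≤ (2 * T) ^ e :=
    Real.rpow_le_rpow (by positivity) (by linarith) he0.le
  rw [Real.mul_rpow (by norm_num) (by linarith)] at h6
  have h7 : T ^ (κ₀ + ε) = T ^ (ε / 2) * T ^ e := by
    rw [← Real.rpow_add (by linarith)]; congr 1; rw [he]; ring
  have h8 : 2 ^ e * T ^ e ≤ T ^ (ε / 2) * T ^ e := mul_le_mul_of_nonneg_right h11 (by positivity)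
  linarith

/-- mean of `log⁺ |ζ|` over a unit interval -/
noncomputable def I1 (T : ℝ) : ℝ := ∫ t in T..(T + 1), log⁺ ‖riemannZeta (1 / 2 + t * Complex.I)‖

lemma cont_f : Continuous fun t : ℝ => log⁺ ‖riemannZeta (1 / 2 + t * Complex.I)‖ :=
  continuous_posLog.comp zeta_line_cont.norm

lemma I1_nonneg (T : ℝ) : 0 ≤ I1 T :=
  intervalIntegral.integral_nonneg (by linarith) fun _ _ => posLog_nonneg

lemma mean_of_LHyp (h : Adm 0) : Tendsto (fun T => I1 T / Real.log T) atTop (𝓝 0) := by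
  rw [NormedAddGroup.tendsto_nhds_zero]
  intro ε hε
  filter_upwards [Ex_empty le_rfl h (ε := ε / 2) (by linarith), eventually_ge_atTop 3] with T hT h3
  have hlog : 0 < Real.log T := Real.log_pos (by linarith)
  rw [Real.norm_of_nonneg (div_nonneg (I1_nonneg T) hlog.le), div_lt_iff₀ hlog]
  have hE := hT 1 le_rfl
  rw [zero_add] at hE
  have h4 : I1 T ≤ ε / 2 * Real.log T := by
    unfold I1
    have h5 : ∫ t in T..(T + 1), log⁺ ‖riemannZeta (1 / 2 + t * Complex.I)‖ ≤
        ∫ _ in T..(T + 1), ε / 2 * Real.log T := by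
      refine intervalIntegral.integral_mono_on (by linarith) (cont_f.intervalIntegrable _ _)
        intervalIntegrable_const ?_
      intro t ht
      have h6 : ‖riemannZeta (1 / 2 + t * Complex.I)‖ ≤ T ^ (ε / 2) := by
        by_contra hcon
        push Not at hcon
        have : t ∈ Ex (ε / 2) T 1 := ⟨by rw [abs_of_nonneg (by linarith [ht.1])]; linarith [ht.2], hcon⟩
        rw [hE] at this
        exact this
      have h7 := posLog_le_posLog (norm_nonneg _) h6
      have h8 : log⁺ (T ^ (ε / 2)) = ε / 2 * Real.log T := by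
        rw [posLog_eq_log, Real.log_rpow (by linarith)]
        rw [abs_of_nonneg (by positivity)]
        exact Real.one_le_rpow (by linarith) (by linarith)
      linarith
    rw [intervalIntegral.integral_const, smul_eq_mul] at h5
    linarith
  have : ε / 2 * Real.log T < ε * Real.log T := by nlinarith
  linarith

lemma LHyp_of_mean (h : Tendsto (fun T => I1 T / Real.log T) atTop (𝓝 0)) : Adm 0 := by
  refine adm_of_windows le_rfl (w := fun _ => 1 / 2) (fun _ => ⟨by norm_num, by norm_num⟩)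
    fun ε hε => ?_
  rw [zero_add]
  have h1 : Tendsto (fun T : ℝ => I1 (T - 1 / 2) / Real.log (T - 1 / 2)) atTop (𝓝 0) :=
    h.comp (tendsto_atTop_add_const_right _ (-(1 / 2)) tendsto_id)
  have h2 : Tendsto (fun T : ℝ => ENNReal.ofReal (2 / ε * (I1 (T - 1 / 2) / Real.log (T - 1 / 2))))
      atTop (𝓝 0) := by
    have := ENNReal.tendsto_ofReal (h1.const_mul (2 / ε))
    simpa using this
  refine tendsto_of_tendsto_of_tendsto_of_le_of_le' tendsto_const_nhds h2
    (Eventually.of_forall fun _ => bot_le) ?_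
  filter_upwards [eventually_ge_atTop 3] with T hT
  have hlog : 0 < Real.log T := Real.log_pos (by linarith)
  have hlog' : 0 < Real.log (T - 1 / 2) := Real.log_pos (by linarith)
  have hll : Real.log (T - 1 / 2) ≤ Real.log T := Real.log_le_log (by linarith) (by linarith)
  have hint : Integrable (fun t : ℝ => log⁺ ‖riemannZeta (1 / 2 + t * Complex.I)‖)
      (volume.restrict (Icc (T - 1 / 2) (T + 1 / 2))) :=
    cont_f.continuousOn.integrableOn_compact isCompact_Icc
  have hM := mul_meas_ge_le_integral_of_nonneg (μ := volume.restrict (Icc (T - 1 / 2) (T + 1 / 2)))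
    (Eventually.of_forall fun t : ℝ => (posLog_nonneg : 0 ≤ log⁺ ‖riemannZeta (1 / 2 + t * Complex.I)‖))
    hint (ε * Real.log T)
  have hI : ∫ t in Icc (T - 1 / 2) (T + 1 / 2), log⁺ ‖riemannZeta (1 / 2 + t * Complex.I)‖ =
      I1 (T - 1 / 2) := by
    unfold I1
    rw [intervalIntegral.integral_of_le (by linarith), integral_Icc_eq_integral_Ioc]
    congr 3
    ring
  rw [hI] at hM
  have hme : MeasurableSet {t : ℝ | ε * Real.log T ≤ log⁺ ‖riemannZeta (1 / 2 + t * Complex.I)‖} :=
    measurableSet_le measurable_const cont_f.measurable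
  have hsub : Ex ε T (1 / 2) ⊆ {t : ℝ | ε * Real.log T ≤
      log⁺ ‖riemannZeta (1 / 2 + t * Complex.I)‖} ∩ Icc (T - 1 / 2) (T + 1 / 2) := by
    rintro x ⟨hx1, hx2⟩
    have hx1' := abs_le.1 hx1
    refine ⟨?_, by constructor <;> linarith [hx1'.1, hx1'.2]⟩
    have h3 := Real.log_le_log (by positivity) hx2.le
    rw [Real.log_rpow (by linarith)] at h3
    exact h3.trans (le_max_right _ _)
  have hv : volume (Ex ε T (1 / 2)) ≤
      (volume.restrict (Icc (T - 1 / 2) (T + 1 / 2)))
        {t : ℝ | ε * Real.log T ≤ log⁺ ‖riemannZeta (1 / 2 + t * Complex.I)‖} := by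
    rw [Measure.restrict_apply hme]
    exact measure_mono hsub
  have hfin : (volume.restrict (Icc (T - 1 / 2) (T + 1 / 2)))
        {t : ℝ | ε * Real.log T ≤ log⁺ ‖riemannZeta (1 / 2 + t * Complex.I)‖} ≠ ⊤ :=
    measure_ne_top _ _
  have hr : (volume (Ex ε T (1 / 2))) ≤ ENNReal.ofReal (I1 (T - 1 / 2) / (ε * Real.log T)) := by
    refine hv.trans ?_
    rw [← ENNReal.ofReal_toReal hfin]
    refine ENNReal.ofReal_le_ofReal ?_
    rw [le_div_iff₀ (by positivity)]
    have : (volume.restrict (Icc (T - 1 / 2) (T + 1 / 2))).real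
        {t : ℝ | ε * Real.log T ≤ log⁺ ‖riemannZeta (1 / 2 + t * Complex.I)‖} * (ε * Real.log T) ≤
        I1 (T - 1 / 2) := by rw [mul_comm]; exact hM
    exact this
  have h5 : volume (Ex ε T (1 / 2)) / ENNReal.ofReal (1 / 2) ≤
      ENNReal.ofReal (I1 (T - 1 / 2) / (ε * Real.log T)) / ENNReal.ofReal (1 / 2) :=
    ENNReal.div_le_div_right hr _
  refine h5.trans ?_
  rw [← ENNReal.ofReal_div_of_pos (by norm_num)]
  refine ENNReal.ofReal_le_ofReal ?_
  have h6 := I1_nonneg (T - 1 / 2)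
  have h7 : I1 (T - 1 / 2) / (ε * Real.log T) ≤ I1 (T - 1 / 2) / (ε * Real.log (T - 1 / 2)) := by
    refine div_le_div_of_nonneg_left h6 (by positivity) ?_
    exact mul_le_mul_of_nonneg_left hll hε.le
  have h8 : I1 (T - 1 / 2) / (ε * Real.log (T - 1 / 2)) / (1 / 2) =
      2 / ε * (I1 (T - 1 / 2) / Real.log (T - 1 / 2)) := by
    field_simp
  rw [← h8]
  exact div_le_div_of_nonneg_right h7 (by norm_num)

end Pool.Agent.H983R4.LH
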